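import Pool.Agent.Lib.MP_abc193_lc.Faithful

/-!
# A strictly T-symmetric 81-state reversible SPCA, universal with finite configurations

The convention of the problem (`TuringUniversalFinite`) alone allows empty configurations `β_q`
and `μ_i`, for which every `enc(q,n)` is the quiescent configuration, and is then satisfied by
every `f` with `f(0) = 0`. `FaithfulUniversalFinite` (in the imported file) excludes such codings:
it asks in addition, for every machine, that all pieces of `enc(q,n)` are nonempty and that
different pairs `(q,n)` have different `enc(q,n)`.
-/

namespace Pool.Agent.Results.MP_abc193_lc.StrictTUniversal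

open Pool.Agent.SPCA81

/-- A faithful coding is in particular one in the sense of the convention of the problem. -/
theorem universal_of_faithful {f : Cell → Cell} (h : FaithfulUniversalFinite f) :
    TuringUniversalFinite f := by
  obtain ⟨h0, c, β, μ, v, hc, hβ, hμ, hv, h⟩ := h
  refine ⟨h0, c, β, μ, v, hc, hβ, hμ, hv, fun M hM => ?_⟩
  obtain ⟨h1, h2, -, -, h5, h6⟩ := h M hM
  exact ⟨h1, h2, h5, h6⟩

/-- There is a local function of an 81-state SPCA which is a bijection, is strictly T-symmetric,
and is Turing universal with finite configurations, by a faithful coding: all pieces are nonempty
and `enc` is injective. -/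
theorem result :
    ∃ f : Cell → Cell, Reversible f ∧ StrictlyTSymmetric f ∧ FaithfulUniversalFinite f :=
  ⟨f, f_bij, strict, faithful⟩

end Pool.Agent.Results.MP_abc193_lc.StrictTUniversal
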